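import Pool.Agent.J4H1.AX.BtP
import Pool.Agent.Q65.AXI.MainP
import Pool.Agent.Q95.AXI.Gd
import Pool.Agent.Q151.AXI.GR
import Pool.Agent.Q151.AXI.Der
import Pool.Agent.Q16.AXI.BQ
import Pool.Agent.Q257.AXI.Kap
import Pool.Agent.Q65.AXI.LogP
import Pool.Agent.Q119.AXI.Bar
import Pool.Agent.Q149.AXI.EqC
import Pool.Agent.Q24.AXI.Cut
import Pool.Agent.Q24.AXI.YiP
import Pool.Agent.Q95.AXP.Yd
import Pool.Agent.Q182.AXI.T1P
import Pool.Agent.Q153.AXI.T2P
import Pool.Agent.Q175.AX.Har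
import Pool.Agent.Q175.AX.UU
import Pool.Agent.Q175.AX.Ell
import Pool.Agent.Q175.AX.Rho
import Pool.Agent.Q175.AX.Sm
import Pool.Agent.Q257.AXI.H0
import Pool.Agent.Q257.AXI.AxF
import Pool.Agent.Q257.AXI.Alg
import Pool.Agent.Q257.AXI.Div
import Pool.Agent.Q182.AXI.AAs
import Pool.Agent.Q119.AXI.Sob
import Pool.Agent.Q119.AXI.Dt
import Pool.Agent.Q153.AXI.Jnt
import Pool.Agent.Q153.AXI.EqW
import Pool.Agent.Q153.AXI.EqJ
import Pool.Agent.Q150.AXI.EqO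
import Pool.Agent.Q285.AXI.Fin
import Pool.Agent.Q285.AXI.Reg
import Pool.Agent.Q16.AXI.Mo
import Pool.Agent.Q111.AXI.Cac
import Pool.Agent.Q153.AXI.Psi
import Pool.Agent.Q16.AXI.Tra
import Pool.Agent.Q67.AXI.Fin2

/-!
Assembly of project AXP.
-/

set_option autoImplicit false

namespace Pool.Agent.J4H1.AX

open Pool.Agent.Q67.AXI

theorem aas : StmAAs := Pool.Agent.Q182.AXI.aas
theorem axf : StmAxF := Pool.Agent.Q257.AXI.t_AxF aas
theorem alg : StmAlg := Pool.Agent.Q257.AXI.t_Alg aas axf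
theorem div : StmDiv := Pool.Agent.Q257.AXI.t_Div aas axf alg
theorem jnt : StmJnt := Pool.Agent.Q153.AXI.t_Jnt aas
theorem eqC : StmEqC := Pool.Agent.Q149.AXI.t_EqC
theorem eqW : StmEqW := Pool.Agent.Q153.AXI.t_EqW aas axf alg jnt eqC
theorem eqJ : StmEqJ := Pool.Agent.Q153.AXI.t_EqJ aas axf alg jnt eqW
theorem eqO : StmEqO := Pool.Agent.Q150.AXI.t_EqO alg
theorem dt : StmDt := Pool.Agent.Q119.AXI.stmDt
theorem h0 : StmH0 := Pool.Agent.Q257.AXI.t_H0
theorem en : Pool.Agent.Q67.AXI.StmEn := Pool.Agent.Q175.AX.en h0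
theorem ell : StmEll := Pool.Agent.Q175.AX.ell h0 axf
theorem sob : StmSob := Pool.Agent.Q119.AXI.stmSob
theorem stU : StmU := Pool.Agent.Q175.AX.stmU alg axf div ell sob
theorem har : StmHar := Pool.Agent.Q175.AX.har
theorem t1P : StmT1P := Pool.Agent.Q182.AXI.T1P.t_T1P alg axf har stU
theorem t2P : StmT2P := Pool.Agent.Q153.AXI.t_T2P alg har
theorem ydP : StmYdP := Pool.Agent.Q95.AXP.yd alg axf div eqJ eqO jnt dt en t1P t2P
theorem bar : StmBar := Pool.Agent.Q119.AXI.stmBar alg eqC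
theorem sm : StmSm := Pool.Agent.Q175.AX.stmSm alg bar
theorem btP' : StmBtP := btP alg jnt dt stU ydP sm
theorem logP : StmLogP := Pool.Agent.Q65.AXI.t_LogP alg jnt bar
theorem cut : StmCut := Pool.Agent.Q24.AXI.t_Cut
theorem yiP : StmYiP := Pool.Agent.Q24.AXI.yiP alg jnt dt stU ydP
theorem psi : StmPsi := Pool.Agent.Q153.AXI.t_Psi
theorem cac : StmCac := Pool.Agent.Q111.AXI.cac psi alg jnt dt en eqW
theorem fin : StmFin := Pool.Agent.Q285.AXI.fin alg axf div jnt cac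
theorem mo : StmMo := Pool.Agent.Q16.AXI.mo alg axf
theorem reg : StmReg := Pool.Agent.Q285.AXI.reg
theorem kap : StmKap := Pool.Agent.Q257.AXI.t_Kap aas axf alg
theorem bq : StmBQ := Pool.Agent.Q16.AXI.BQ.bq
theorem der : StmDer := Pool.Agent.Q151.AXI.stmDer bq
theorem gr : StmGR := Pool.Agent.Q151.AXI.stmGR
theorem gd : StmGd := Pool.Agent.Q95.AXI.gd gr der kap
theorem mainP : StmMainP := Pool.Agent.Q65.AXI.t_MainP gd logP cut btP' yiP fin mo reg alg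
theorem tra : StmTra := Pool.Agent.Q16.AXI.tra'

end Pool.Agent.J4H1.AX
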