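import Pool.Agent.J4H1.AX.Seg
import Pool.Agent.Q67.AXI.Defs3
import Pool.Agent.Q24.AXI.YiP

/-!
# Project AXP (helper67), job AXP-BT: the bound of `WW`

If `M` is the maximum of `|WW|` on `[T₁, t'] × Cy`, attained at the time `t₀`, the differential
inequality gives `∫ GD (φ OO) ≤ C M^(7/16)` on `[T₁, t₀]`, so the integral of `sup |UU|` over the
last `M^(-1/2) / 2` units of time is at most one, and `StmSm` gives `M ≤ C M^(1/2)`.
-/

set_option autoImplicit false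

open MeasureTheory Set Metric Filter Topology
open scoped ContDiff

namespace Pool.Agent.J4H1.AX

open H459R3.NS Pool.Agent.W268.NS Pool.Agent.Q67.VD
open Pool.Agent.Q85.CC Pool.Agent.Q85.CL Pool.Agent.TH305.AX Pool.Agent.Q67.AXI
open Pool.Agent.Q285.AXI (slice co_mono gsq_nn dis_int)

theorem cyc (c r h : ℝ) : IsCompact (Cy c r h) := by
  have hcl : IsClosed (Cy c r h) := by
    have h1 : Continuous fun x : V => sg x := by unfold sg; fun_prop
    have h2 : Continuous fun x : V => |x 2 - c| := by fun_prop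
    exact (isClosed_le h1 continuous_const).inter (isClosed_le h2 continuous_const)
  refine Metric.isCompact_of_isClosed_isBounded hcl ?_
  rw [isBounded_iff_forall_norm_le]
  refine ⟨|r| + (|h| + |c|), ?_⟩
  intro x hx
  obtain ⟨h1, h2⟩ := hx
  have h3 : |x 0| ≤ |r| := sq_le_sq.1 (by unfold sg at h1; nlinarith [sq_nonneg (x 1)])
  have h4 : |x 1| ≤ |r| := sq_le_sq.1 (by unfold sg at h1; nlinarith [sq_nonneg (x 0)])
  have h5 : |x 2| ≤ |h| + |c| := by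
    have : x 2 = (x 2 - c) + c := by ring
    rw [this]
    exact (abs_add_le _ _).trans (by linarith [le_abs_self h])
  have h6 : 0 ≤ |r| := abs_nonneg _
  have h7 : 0 ≤ |h| + |c| := by positivity
  rw [pi_norm_le_iff_of_nonneg (by linarith)]
  intro i
  rw [Real.norm_eq_abs]
  fin_cases i
  · show |x 0| ≤ _
    linarith
  · show |x 1| ≤ _
    linarith
  · show |x 2| ≤ _
    linarith

lemma GD_nn (f : V → ℝ) : 0 ≤ GD f :=
  integral_nonneg fun _ => Finset.sum_nonneg fun _ _ => sq_nonneg _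

lemma amgm {y q lam : ℝ} (hlam : 0 < lam) (h : y ^ 2 ≤ q) : |y| ≤ lam / 2 + q / (2 * lam) := by
  have h8 : |y| ^ 2 ≤ q := by rw [sq_abs]; exact h
  have h7 : 2 * lam * |y| ≤ lam ^ 2 + q := by nlinarith [sq_nonneg (lam - |y|)]
  have h9 : lam / 2 + q / (2 * lam) = (lam ^ 2 + q) / (2 * lam) := by
    field_simp
  rw [h9, le_div_iff₀ (by positivity)]
  linarith

lemma PM_le' {M P : ℝ} (hP : 0 < P) : PM M P ≤ P⁻¹ := by
  unfold PM
  split_ifs
  · exact le_rfl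
  · exact (inv_pos.2 hP).le

lemma PM_zero {M P : ℝ} (h : M ^ (-(1 / 8) : ℝ) ≤ P) : PM M P = 0 := by
  unfold PM
  rw [if_neg (not_lt.2 h)]

/-- The energy estimate: the constant does not depend on `M`, `l` and `t₀`. -/
theorem energy {T T₁ θ ε₀ C₀ D e₁ : ℝ} (_hT : T₁ < T) (hθ0 : 0 < θ) (hθ : θ < 1)
    (hε : ε₀ ≤ (1 - θ) / (16 * θ)) (hC₀ : 0 ≤ C₀) (hD : 0 ≤ D) (he₁ : 0 ≤ e₁)
    {G : ℝ → ℝ} (hG0 : ∀ t, 0 ≤ G t) (hGi : ∀ t ∈ Ico T₁ T, IntegrableOn G (Icc T₁ t))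
    (hGD : ∀ a b, T₁ ≤ a → a ≤ b → b < T → ∫ s in a..b, (1 + G s) ≤ D) :
    ∃ C : ℝ, 0 ≤ C ∧ ∀ (M l t₀ : ℝ) (Y D' g : ℝ → ℝ), 1 ≤ M → M ^ (-ε₀) ≤ l → l ≤ 1 →
      t₀ ∈ Ico T₁ T → (∀ t, 0 ≤ Y t) → Y T₁ ≤ e₁ → (∀ t ∈ Icc T₁ t₀, HasDerivAt Y (D' t) t) →
      (∀ t ∈ Icc T₁ t₀, D' t ≤ -g t + C₀ * M ^ (3 / 8 : ℝ) * (1 + G t)
        + C₀ * PM M ((T - t) ^ θ) * (1 + Y t / l)) →
      (∀ t, 0 ≤ g t) → ContinuousOn g (Icc T₁ t₀) →
      ∫ s in T₁..t₀, g s ≤ C * M ^ (3 / 8 : ℝ) := by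
  have h1θ : 0 < 1 - θ := by linarith
  obtain ⟨L, hL⟩ : ∃ L : ℝ, L = Real.exp (C₀ / (1 - θ)) := ⟨_, rfl⟩
  have hL1 : 1 ≤ L := by
    rw [hL]; exact Real.one_le_exp (by positivity)
  refine ⟨2 * L * ((e₁ + C₀ * D) + C₀ / (1 - θ) + C₀ * D), by positivity, ?_⟩
  intro M l t₀ Y D' g hM hl hl1 ht₀ hY hYe hd1 hd2 hg0 hgc
  have hM0 : 0 < M := by linarith
  have hl0 : 0 < l := (Real.rpow_pos_of_pos hM0 _).trans_le hl
  have hM8 : 1 ≤ M ^ (3 / 8 : ℝ) := Real.one_le_rpow hM (by norm_num)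
  obtain ⟨A, hA⟩ : ∃ A : ℝ, A = C₀ * M ^ (3 / 8 : ℝ) := ⟨_, rfl⟩
  have hA0 : 0 ≤ A := by rw [hA]; positivity
  rw [← hA] at hd2
  -- the switching time
  obtain ⟨s₁, hs₁⟩ : ∃ s₁ : ℝ, s₁ = T - M ^ (-(1 / (8 * θ)) : ℝ) := ⟨_, rfl⟩
  obtain ⟨s₀, hs₀⟩ : ∃ s₀ : ℝ, s₀ = min (max s₁ T₁) t₀ := ⟨_, rfl⟩
  have hs1 : T₁ ≤ s₀ := by rw [hs₀]; exact le_min (le_max_right _ _) ht₀.1
  have hs2 : s₀ ≤ t₀ := by rw [hs₀]; exact min_le_right _ _
  have hmp : 0 < M ^ (-(1 / (8 * θ)) : ℝ) := Real.rpow_pos_of_pos hM0 _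
  have hgi : ∀ a b, T₁ ≤ a → b ≤ t₀ → IntegrableOn g (Icc a b) := fun a b ha hb =>
    ((hgc.mono (Icc_subset_Icc ha hb)).integrableOn_compact isCompact_Icc)
  have hGi' : ∀ a b, T₁ ≤ a → b ≤ t₀ → IntegrableOn G (Icc a b) := fun a b ha hb =>
    (hGi t₀ ht₀).mono_set (Icc_subset_Icc ha hb)
  -- first interval
  have k1 := seg (T := T) (θ := θ) (κ := 0) (l := l) (A := A) (D := D) hs1 (hs2.trans_lt ht₀.2) hθ
    le_rfl hl0 hA0 hY (fun t ht => hd1 t ⟨ht.1, ht.2.trans hs2⟩) (g := g) (G := G)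
    (by
      intro t ht
      have h1 := hd2 t ⟨ht.1.le, ht.2.le.trans hs2⟩
      have h2 : PM M ((T - t) ^ θ) = 0 := by
        apply PM_zero
        have h3 : t < s₁ := by
          have h4 : t < max s₁ T₁ := ht.2.trans_le (by rw [hs₀]; exact min_le_left _ _)
          rcases lt_max_iff.1 h4 with h5 | h5
          · exact h5
          · exact absurd ht.1 (not_lt.2 h5.le)
        have h6 : M ^ (-(1 / (8 * θ)) : ℝ) ≤ T - t := by rw [hs₁] at h3; linarith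
        have h7 := Real.rpow_le_rpow hmp.le h6 hθ0.le
        rw [← Real.rpow_mul hM0.le] at h7
        have h8 : -(1 / (8 * θ)) * θ = -(1 / 8 : ℝ) := by field_simp
        rw [h8] at h7
        exact h7
      rw [h2] at h1
      simpa using h1)
    hg0 (hgi _ _ le_rfl hs2) hG0 (hGi' _ _ le_rfl hs2) (hGD _ _ le_rfl hs1 (hs2.trans_lt ht₀.2))
  rw [zero_div, zero_mul, Real.exp_zero, one_mul, zero_div, zero_mul, add_zero] at k1
  -- second interval
  have k2 := seg (T := T) (θ := θ) (κ := C₀) (l := l) (A := A) (D := D) hs2 ht₀.2 hθ hC₀ hl0 hA0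
    hY (fun t ht => hd1 t ⟨hs1.trans ht.1, ht.2⟩) (g := g) (G := G)
    (by
      intro t ht
      refine (hd2 t ⟨hs1.trans ht.1.le, ht.2.le⟩).trans ?_
      have g4 : 0 < (T - t) ^ θ := Real.rpow_pos_of_pos (by linarith [ht.2, ht₀.2]) _
      have g5 : PM M ((T - t) ^ θ) ≤ (T - t) ^ (-θ) := by
        rw [Real.rpow_neg (by linarith [ht.2, ht₀.2])]
        exact PM_le' g4
      have g6 : 0 ≤ 1 + Y t / l := by
        have := div_nonneg (hY t) hl0.le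
        linarith
      have g7 : C₀ * PM M ((T - t) ^ θ) * (1 + Y t / l) ≤ C₀ * (T - t) ^ (-θ) * (1 + Y t / l) :=
        mul_le_mul_of_nonneg_right (mul_le_mul_of_nonneg_left g5 hC₀) g6
      linarith)
    hg0 (hgi _ _ hs1 le_rfl) hG0 (hGi' _ _ hs1 le_rfl) (hGD _ _ hs1 hs2 ht₀.2)
  obtain ⟨Fs, hFs⟩ : ∃ Fs : ℝ, Fs = (T - s₀) ^ (1 - θ) := ⟨_, rfl⟩
  rw [← hFs] at k2
  have hsplit : (∫ s in T₁..s₀, g s) + ∫ s in s₀..t₀, g s = ∫ s in T₁..t₀, g s :=
    intervalIntegral.integral_add_adjacent_intervals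
      ((intervalIntegrable_iff_integrableOn_Icc_of_le hs1).2 (hgi _ _ le_rfl hs2))
      ((intervalIntegrable_iff_integrableOn_Icc_of_le hs2).2 (hgi _ _ hs1 le_rfl))
  have hi1 : 0 ≤ ∫ s in T₁..s₀, g s := intervalIntegral.integral_nonneg hs1 fun _ _ => hg0 _
  have hi2 : 0 ≤ ∫ s in s₀..t₀, g s := intervalIntegral.integral_nonneg hs2 fun _ _ => hg0 _
  have hAD : A * D = C₀ * D * M ^ (3 / 8 : ℝ) := by rw [hA]; ring
  have hCD : 0 ≤ C₀ * D := by positivity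
  have hYs := hY s₀
  have hYt := hY t₀
  -- the first part is small
  have m1 : Y s₀ + (∫ s in T₁..s₀, g s) ≤ (e₁ + C₀ * D) * M ^ (3 / 8 : ℝ) := by
    rw [hAD] at k1
    nlinarith
  obtain ⟨X, hX⟩ : ∃ X : ℝ, X = M ^ (3 / 8 : ℝ) := ⟨_, rfl⟩
  rw [← hX] at m1 hAD hM8 ⊢
  rcases le_total t₀ s₁ with hc | hc
  · -- no second interval
    have h1 : s₀ = t₀ := by
      rw [hs₀]
      exact min_eq_right (hc.trans (le_max_left _ _))
    rw [h1] at m1
    have h2 : (e₁ + C₀ * D) * X ≤ 2 * L * ((e₁ + C₀ * D) + C₀ / (1 - θ) + C₀ * D) * X := by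
      apply mul_le_mul_of_nonneg_right _ (by linarith)
      have : 0 ≤ C₀ / (1 - θ) := by positivity
      nlinarith [mul_nonneg (by linarith : (0:ℝ) ≤ 2 * L - 1)
        (by positivity : (0:ℝ) ≤ (e₁ + C₀ * D) + C₀ / (1 - θ) + C₀ * D)]
    linarith
  · -- the weight
    have hTs : T - s₀ ≤ M ^ (-(1 / (8 * θ)) : ℝ) := by
      have : s₁ ≤ s₀ := by rw [hs₀]; exact le_min (le_max_left _ _) hc
      rw [hs₁] at this
      linarith
    have hTs0 : 0 < T - s₀ := by linarith [ht₀.2]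
    have hF1 : Fs ≤ M ^ (-(ε₀) : ℝ) := by
      have h7 := Real.rpow_le_rpow hTs0.le hTs h1θ.le
      rw [← Real.rpow_mul hM0.le, ← hFs] at h7
      refine h7.trans (Real.rpow_le_rpow_of_exponent_le hM ?_)
      have h8 : -(1 / (8 * θ)) * (1 - θ) = -(2 * ((1 - θ) / (16 * θ))) := by
        field_simp
        ring
      rw [h8]
      have h9 : 0 ≤ (1 - θ) / (16 * θ) := by positivity
      linarith
    have hF0 : 0 ≤ Fs := by rw [hFs]; exact Real.rpow_nonneg hTs0.le _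
    have hFl : Fs ≤ l := hF1.trans hl
    have hF1' : Fs ≤ 1 := hFl.trans hl1
    have hE : Real.exp (C₀ / (l * (1 - θ)) * Fs) ≤ L := by
      rw [hL, Real.exp_le_exp]
      have : C₀ / (l * (1 - θ)) * Fs = C₀ / (1 - θ) * (Fs / l) := by field_simp
      rw [this]
      exact mul_le_of_le_one_right (by positivity) ((div_le_one hl0).2 hFl)
    have h3 : 0 ≤ Y s₀ + C₀ / (1 - θ) * Fs + A * D := by positivity
    have h4 : C₀ / (1 - θ) * Fs ≤ C₀ / (1 - θ) * X := by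
      apply mul_le_mul_of_nonneg_left (by linarith) (by positivity)
    have k3 : Y t₀ + (∫ s in s₀..t₀, g s) ≤ L * (Y s₀ + C₀ / (1 - θ) * Fs + A * D) :=
      k2.trans (mul_le_mul_of_nonneg_right hE h3)
    have k4 : L * (Y s₀ + C₀ / (1 - θ) * Fs + A * D) ≤
        L * (((e₁ + C₀ * D) + C₀ / (1 - θ) + C₀ * D) * X) := by
      apply mul_le_mul_of_nonneg_left _ (by linarith)
      nlinarith
    have k5 : (e₁ + C₀ * D) * X ≤ L * (((e₁ + C₀ * D) + C₀ / (1 - θ) + C₀ * D) * X) := by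
      have a1 : 0 ≤ C₀ / (1 - θ) := by positivity
      have a2 : 0 ≤ X := by linarith
      have a3 : (e₁ + C₀ * D) * X ≤ ((e₁ + C₀ * D) + C₀ / (1 - θ) + C₀ * D) * X :=
        mul_le_mul_of_nonneg_right (by linarith) a2
      have a4 : 0 ≤ ((e₁ + C₀ * D) + C₀ / (1 - θ) + C₀ * D) * X := by positivity
      nlinarith
    nlinarith

theorem btP (hAlg : StmAlg) (hJnt : StmJnt) (hDt : StmDt) (hU : StmU) (hYd : StmYdP)
    (hSm : StmSm) : StmBtP := by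
  intro T E c R H K r h r1 h1 T₁ C' Cc α' θ u p φ hA hK hr1 hr1r hrR hr2 hh1 hh1h hhH hh hT₁ hT₁T
    hC' hCc hα hα2 hθ0 hθ1 hcut hout hcirc
  have hr0 : 0 < r := hr1.trans hr1r
  have hh0 : 0 < h := hh1.trans hh1h
  have h1θ : 0 < 1 - θ := by linarith
  have hr1' : r ≤ 1 := by
    by_contra hcon
    push Not at hcon
    have : Real.exp (-2) < 1 := by
      rw [Real.exp_lt_one_iff]
      norm_num
    nlinarith
  have hsub : Co c r h ⊆ Co c R H := co_mono hr0 hrR hhH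
  obtain ⟨ε₀, hε₀⟩ : ∃ ε₀ : ℝ, ε₀ = min (1 / 16) ((1 - θ) / (16 * θ)) := ⟨_, rfl⟩
  have hε1 : ε₀ ≤ 1 / 16 := by rw [hε₀]; exact min_le_left _ _
  have hε2 : ε₀ ≤ (1 - θ) / (16 * θ) := by rw [hε₀]; exact min_le_right _ _
  have hε3 : 0 < ε₀ := by rw [hε₀]; exact lt_min (by norm_num) (by positivity)
  obtain ⟨C₀, M₀, hC₀, hM₀, hyd⟩ := hYd T E c R H K r h r1 h1 T₁ C' Cc α' θ ε₀ u p φ hA hK hr1
    hr1r hrR hr2 hh1 hh1h hhH hh hT₁ hT₁T hC' hCc hα hα2 hε3 hcut hout hcirc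
  obtain ⟨C₁, hC₁, hU'⟩ := hU K c r h r1 h1 hK hr1 hr1r hr1' hh1 hh1h hh
  -- points of the closed cylinder
  have hcase : ∀ x ∈ Cy c r h, x ∈ Out c r h r1 h1 ∨ x ∈ Cy c r1 h1 ∧ x ∈ Co c r h := by
    intro x hx
    by_cases h : r1 ^ 2 ≤ sg x ∨ h1 ≤ |x 2 - c|
    · exact Or.inl ⟨hx, h⟩
    · push Not at h
      exact Or.inr ⟨⟨h.1.le, h.2.le⟩, h.1.trans (pow_lt_pow_left₀ hr1r hr1.le two_ne_zero),
        h.2.trans hh1h⟩
  have hbd : ∀ t ∈ Ico T₁ T, ∀ x ∈ Cy c r h, |circ (u t) x| ≤ Cc + r ^ 2 * K ∧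
      ((sg x = r ^ 2 ∨ |x 2 - c| = h) → |WW (u t) x| ≤ K) := by
    intro t ht x hx
    have ht' : t ∈ Ioo 0 T := ⟨hT₁.trans_le ht.1, ht.2⟩
    have hce : circ (u t) x = sg x * WW (u t) x := by
      obtain ⟨-, -, -, hal⟩ := hAlg (u t) (slice hA.smooth_u ht') (hA.axi t ht')
      exact (hal x).2.2.2.2.2.2.2.2.1
    have hrK : 0 ≤ r ^ 2 * K := by positivity
    constructor
    · rcases hcase x hx with h3 | h3
      · have h4 := (hout t ht x h3).2.2.1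
        rw [hce, abs_mul, abs_of_nonneg (sg_nonneg x)]
        have h5 : sg x * |WW (u t) x| ≤ r ^ 2 * K :=
          mul_le_mul hx.1 h4 (abs_nonneg _) (by positivity)
        linarith
      · have := (hcirc t ht x h3.2).1
        linarith
    · intro h3
      have h4 : x ∈ Out c r h r1 h1 := by
        refine ⟨hx, ?_⟩
        rcases h3 with h3 | h3
        · left
          rw [h3]
          exact pow_le_pow_left₀ hr1.le hr1r.le 2
        · right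
          rw [h3]
          exact hh1h.le
      exact (hout t ht x h4).2.2.1
  obtain ⟨C₂, hC₂, hSm'⟩ := hSm T E c R H r h T₁ K (Cc + r ^ 2 * K) u p hA hr0 hrR hh0 hhH hT₁
    hT₁T hbd
  -- the dissipation
  obtain ⟨G, hG⟩ : ∃ G : ℝ → ℝ, G = fun t => ∫ x in Co c r h, W221.NS.gsq (u t) x := ⟨_, rfl⟩
  have hGint : IntegrableOn G (Ioo 0 T) := by rw [hG]; exact dis_int hsub hA.dis
  have hGnn : ∀ t, 0 ≤ G t := by
    intro t
    rw [hG]
    exact integral_nonneg fun x => gsq_nn _ x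
  obtain ⟨D₀, hD₀⟩ : ∃ D₀ : ℝ, D₀ = ∫ s in Ioo 0 T, G s := ⟨_, rfl⟩
  have hD₀0 : 0 ≤ D₀ := by rw [hD₀]; exact integral_nonneg fun _ => hGnn _
  have hsub2 : ∀ t ∈ Ico T₁ T, Icc T₁ t ⊆ Ioo 0 T := fun t ht s hs =>
    ⟨hT₁.trans_le hs.1, hs.2.trans_lt ht.2⟩
  have hGi : ∀ t ∈ Ico T₁ T, IntegrableOn G (Icc T₁ t) := fun t ht => hGint.mono_set (hsub2 t ht)
  have hT0 : 0 < T := hT₁.trans hT₁T
  have hGD : ∀ a b, T₁ ≤ a → a ≤ b → b < T → ∫ s in a..b, (1 + G s) ≤ T + D₀ := by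
    intro a b ha hab hb
    have hi : IntegrableOn G (Icc a b) :=
      (hGi b ⟨ha.trans hab, hb⟩).mono_set (Icc_subset_Icc_left ha)
    have hii : IntervalIntegrable G volume a b :=
      (intervalIntegrable_iff_integrableOn_Icc_of_le hab).2 hi
    rw [intervalIntegral.integral_add (by simp) hii]
    rw [intervalIntegral.integral_const, smul_eq_mul, mul_one]
    have h6 : ∫ s in a..b, G s ≤ D₀ := by
      rw [intervalIntegral.integral_of_le hab, hD₀]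
      refine setIntegral_mono_set hGint ?_ ?_
      · exact Eventually.of_forall fun s => hGnn s
      · have hss : Ioc a b ⊆ Ioo 0 T := fun s hs =>
          ⟨hT₁.trans_le (ha.trans hs.1.le), hs.2.trans_lt hb⟩
        exact hss.eventuallyLE
    linarith
  obtain ⟨e₁, he₁⟩ : ∃ e₁ : ℝ, e₁ = (∫ x, φ x ^ 2 * JJ (u T₁) x ^ 2)
      + ∫ x, φ x ^ 2 * OO (u T₁) x ^ 2 := ⟨_, rfl⟩
  have hYJ : ∀ t, 0 ≤ ∫ x, φ x ^ 2 * JJ (u t) x ^ 2 := fun t =>
    integral_nonneg fun x => mul_nonneg (sq_nonneg _) (sq_nonneg _)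
  have hYO : ∀ t, 0 ≤ ∫ x, φ x ^ 2 * OO (u t) x ^ 2 := fun t =>
    integral_nonneg fun x => mul_nonneg (sq_nonneg _) (sq_nonneg _)
  have he₁0 : 0 ≤ e₁ := by rw [he₁]; exact add_nonneg (hYJ _) (hYO _)
  obtain ⟨C₃, hC₃, hen⟩ := energy hT₁T hθ0 hθ1 hε2 hC₀ (by positivity : 0 ≤ T + D₀) he₁0
    hGnn hGi hGD
  -- the bound
  obtain ⟨M₁, hM₁⟩ : ∃ M₁ : ℝ, M₁ = M₀ + (2 * K + 2) ^ 2 + (C₁ * (1 + C₃) + 1) ^ 16
      + (4 * C₂ + 2) ^ 2 := ⟨_, rfl⟩
  have hq1 : 0 ≤ (2 * K + 2) ^ 2 := by positivity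
  have hq2 : 0 ≤ (C₁ * (1 + C₃) + 1) ^ 16 := by positivity
  have hq3 : 0 ≤ (4 * C₂ + 2) ^ 2 := by positivity
  have key : ∀ t' ∈ Ico T₁ T, ∀ x ∈ Cy c r h, |WW (u t') x| ≤ M₁ := by
    intro t' ht' x hx
    by_contra hcon
    push Not at hcon
    have hWc : ContinuousOn (fun z : ℝ × V => |WW (u z.1) z.2|) (Icc T₁ t' ×ˢ Cy c r h) := by
      have h2 := (hJnt T u hA.smooth_u).2.1.continuousOn
      exact (h2.mono (prod_mono (hsub2 t' ht') (subset_univ _))).abs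
    obtain ⟨z₀, hz₀, hmax⟩ := (isCompact_Icc.prod (cyc c r h)).exists_isMaxOn
      ⟨(t', x), ⟨⟨ht'.1, le_rfl⟩, hx⟩⟩ hWc
    obtain ⟨t₀, x₀⟩ := z₀
    obtain ⟨M, hM⟩ : ∃ M : ℝ, M = |WW (u t₀) x₀| := ⟨_, rfl⟩
    have hmax' : ∀ s ∈ Icc T₁ t', ∀ y ∈ Cy c r h, |WW (u s) y| ≤ M := by
      intro s hs y hy
      rw [hM]
      exact hmax (mk_mem_prod hs hy)
    have hMM : M₁ < M := hcon.trans_le (hmax' t' ⟨ht'.1, le_rfl⟩ x hx)
    have ht₀ : t₀ ∈ Ico T₁ T := ⟨hz₀.1.1, hz₀.1.2.trans_lt ht'.2⟩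
    have ht₀' : t₀ ≤ t' := hz₀.1.2
    have hMM0 : M₀ ≤ M := by linarith
    have hM1 : 1 ≤ M := by linarith
    have hMpos : 0 < M := by linarith
    obtain ⟨l, hl1, hl2, hl⟩ := hyd M hMM0
    have hl0 : 0 < l := (Real.rpow_pos_of_pos hMpos _).trans_le hl1
    have hCoCy : Co c r h ⊆ Cy c r h := fun y hy => ⟨hy.1.le, hy.2.le⟩
    obtain ⟨Y, hY⟩ : ∃ Y : ℝ → ℝ, Y = fun s => (∫ x, φ x ^ 2 * JJ (u s) x ^ 2)
      + l * ∫ x, φ x ^ 2 * OO (u s) x ^ 2 := ⟨_, rfl⟩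
    have hYnn : ∀ t, 0 ≤ Y t := by
      intro t
      rw [hY]
      exact add_nonneg (hYJ t) (mul_nonneg hl0.le (hYO t))
    have hder : ∀ t ∈ Icc T₁ t₀, ∃ D' : ℝ, HasDerivAt Y D' t ∧
        D' ≤ -(l * GD (fun x => φ x * OO (u t) x)) + C₀ * M ^ (3 / 8 : ℝ) * (1 + G t)
          + C₀ * PM M ((T - t) ^ θ) * (1 + Y t / l) := by
      intro t ht
      obtain ⟨D', hD1, hD2⟩ := hl t ⟨ht.1, ht.2.trans_lt ht₀.2⟩
        (fun x hx => hmax' t ⟨ht.1, ht.2.trans ht₀'⟩ x (hCoCy hx))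
      refine ⟨D', by rw [hY]; exact hD1, hD2.trans ?_⟩
      have g2 := GD_nn (fun x => φ x * JJ (u t) x)
      have g8 : Y t = (∫ x, φ x ^ 2 * JJ (u t) x ^ 2) + l * ∫ x, φ x ^ 2 * OO (u t) x ^ 2 := by
        rw [hY]
      rw [← g8, hG]
      linarith
    choose! D' hD1 hD2 using hder
    have hGDc : ContinuousOn (fun t => GD (fun x => φ x * OO (u t) x)) (Ioo 0 T) :=
      (hDt T (fun t => OO (u t)) φ (hJnt T u hA.smooth_u).2.2.2 hcut.sm hcut.cs).1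
    have hGDc' : ContinuousOn (fun t => GD (fun x => φ x * OO (u t) x)) (Icc T₁ t₀) :=
      hGDc.mono (hsub2 t₀ ht₀)
    have hE := hen M l t₀ Y D' (fun t => l * GD (fun x => φ x * OO (u t) x)) hM1 hl1 hl2 ht₀ hYnn
      (by
        rw [hY, he₁]
        exact add_le_add le_rfl (mul_le_of_le_one_left (hYO T₁) hl2))
      hD1 hD2 (fun t => mul_nonneg hl0.le (GD_nn _)) (hGDc'.const_smul l)
    rw [intervalIntegral.integral_const_mul] at hE
    obtain ⟨J, hJ⟩ : ∃ J : ℝ, J = ∫ s in T₁..t₀, GD (fun x => φ x * OO (u s) x) := ⟨_, rfl⟩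
    rw [← hJ] at hE
    have hJ1 : J ≤ C₃ * M ^ (7 / 16 : ℝ) := by
      have h3 : M ^ (-ε₀) * J ≤ C₃ * M ^ (3 / 8 : ℝ) := by
        have hJ0 : 0 ≤ J := by
          rw [hJ]; exact intervalIntegral.integral_nonneg ht₀.1 fun _ _ => GD_nn _
        exact (mul_le_mul_of_nonneg_right hl1 hJ0).trans hE
      have h4 : M ^ ε₀ * (M ^ (-ε₀) * J) ≤ M ^ ε₀ * (C₃ * M ^ (3 / 8 : ℝ)) :=
        mul_le_mul_of_nonneg_left h3 (Real.rpow_nonneg hMpos.le _)
      rw [← mul_assoc, ← Real.rpow_add hMpos, add_neg_cancel, Real.rpow_zero, one_mul] at h4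
      have h5 : M ^ ε₀ * (C₃ * M ^ (3 / 8 : ℝ)) = C₃ * M ^ (ε₀ + 3 / 8 : ℝ) := by
        rw [Real.rpow_add hMpos]; ring
      rw [h5] at h4
      refine h4.trans (mul_le_mul_of_nonneg_left ?_ hC₃)
      exact Real.rpow_le_rpow_of_exponent_le hM1 (by linarith)
    -- the bound of `UU`
    obtain ⟨lam, hlam⟩ : ∃ lam : ℝ, lam = √M := ⟨_, rfl⟩
    have hlam2 : lam ^ 2 = M := by rw [hlam]; exact Real.sq_sqrt hMpos.le
    have hlam0 : 0 < lam := by rw [hlam]; exact Real.sqrt_pos.2 hMpos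
    have hlamK : 2 * K + 2 ≤ lam := by
      rw [hlam]
      exact Real.le_sqrt_of_sq_le (by linarith)
    obtain ⟨B, hB⟩ : ∃ B : ℝ → ℝ, B = fun t => (K + lam / 2) +
        C₁ / (2 * lam) * (1 + GD (fun x => φ x * OO (u t) x)) := ⟨_, rfl⟩
    have hBc : ContinuousOn B (Icc T₁ t₀) := by
      rw [hB]
      exact continuousOn_const.add (continuousOn_const.mul (continuousOn_const.add hGDc'))
    have hUB : ∀ t ∈ Icc T₁ t₀, ∀ y ∈ Cy c r h, |UU (u t) y| ≤ B t := by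
      intro t ht y hy
      have htI : t ∈ Ico T₁ T := ⟨ht.1, ht.2.trans_lt ht₀.2⟩
      have htI' : t ∈ Ioo 0 T := ⟨hT₁.trans_le ht.1, htI.2⟩
      have hGn := GD_nn (fun x => φ x * OO (u t) x)
      have hp1 : 0 ≤ C₁ / (2 * lam) * (1 + GD (fun x => φ x * OO (u t) x)) := by positivity
      rcases hcase y hy with h3 | h3
      · have h4 := (hout t htI y h3).2.1
        rw [hB]
        simp only
        linarith
      · obtain ⟨-, -, u3, -⟩ := hU' (u t) φ (slice hA.smooth_u htI') (hA.axi t htI')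
          (fun x hx => hA.divfree t htI' x (hsub hx)) hcut (hout t htI)
        have h4 := u3 y
        rw [hcut.one y h3.1, one_mul] at h4
        obtain ⟨q, hq⟩ : ∃ q : ℝ, q = C₁ * (1 + GD (fun x => φ x * OO (u t) x)) := ⟨_, rfl⟩
        rw [← hq] at h4
        have h5 : C₁ / (2 * lam) * (1 + GD (fun x => φ x * OO (u t) x)) = q / (2 * lam) := by
          rw [hq]; ring
        rw [hB]
        simp only
        rw [h5]
        have h6 := amgm hlam0 h4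
        linarith
    obtain ⟨τ, hτ⟩ : ∃ τ : ℝ, τ = 1 / (2 * lam) := ⟨_, rfl⟩
    have hτ0 : 0 < τ := by rw [hτ]; positivity
    have hτ1 : τ ≤ 1 := by
      rw [hτ, div_le_one (by positivity)]
      linarith
    obtain ⟨a, ha⟩ : ∃ a : ℝ, a = max T₁ (t₀ - τ) := ⟨_, rfl⟩
    have ha1 : T₁ ≤ a := by rw [ha]; exact le_max_left _ _
    have ha2 : a ≤ t₀ := by rw [ha]; exact max_le ht₀.1 (by linarith)
    have ha3 : t₀ - a ≤ τ := by
      have : t₀ - τ ≤ a := by rw [ha]; exact le_max_right _ _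
      linarith
    have hgI : ∀ a b, T₁ ≤ a → a ≤ b → b ≤ t₀ → IntervalIntegrable
        (fun t => GD (fun x => φ x * OO (u t) x)) volume a b := by
      intro a b h3 h4 h5
      refine (intervalIntegrable_iff_integrableOn_Icc_of_le h4).2 ?_
      exact (hGDc'.mono (Icc_subset_Icc h3 h5)).integrableOn_compact isCompact_Icc
    have hJa : ∫ s in a..t₀, GD (fun x => φ x * OO (u s) x) ≤ J := by
      rw [hJ, ← intervalIntegral.integral_add_adjacent_intervals (hgI T₁ a le_rfl ha1 ha2)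
        (hgI a t₀ ha1 ha2 le_rfl)]
      have : 0 ≤ ∫ s in T₁..a, GD (fun x => φ x * OO (u s) x) :=
        intervalIntegral.integral_nonneg ha1 fun _ _ => GD_nn _
      linarith
    have hint : ∫ t in a..t₀, B t ≤ 1 := by
      have h3 : ∫ t in a..t₀, B t = (K + lam / 2) * (t₀ - a) + C₁ / (2 * lam) * ((t₀ - a)
          + ∫ s in a..t₀, GD (fun x => φ x * OO (u s) x)) := by
        rw [hB, intervalIntegral.integral_add (by simp)
          (((intervalIntegrable_const).add (hgI a t₀ ha1 ha2 le_rfl)).const_mul _),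
          intervalIntegral.integral_const_mul, intervalIntegral.integral_add (by simp)
          (hgI a t₀ ha1 ha2 le_rfl)]
        simp only [intervalIntegral.integral_const, smul_eq_mul]
        ring
      rw [h3]
      have h4 : (K + lam / 2) * (t₀ - a) ≤ (K + lam / 2) * τ :=
        mul_le_mul_of_nonneg_left ha3 (by positivity)
      have h5 : (K + lam / 2) * τ ≤ 1 / 2 := by
        rw [hτ, mul_one_div, div_le_iff₀ (by positivity)]
        linarith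
      have h6 : (t₀ - a) + (∫ s in a..t₀, GD (fun x => φ x * OO (u s) x)) ≤
          (1 + C₃) * M ^ (7 / 16 : ℝ) := by
        have g1 : 1 ≤ M ^ (7 / 16 : ℝ) := Real.one_le_rpow hM1 (by norm_num)
        have g2 : (1 + C₃) * M ^ (7 / 16 : ℝ) = M ^ (7 / 16 : ℝ) + C₃ * M ^ (7 / 16 : ℝ) := by ring
        rw [g2]
        exact add_le_add ((ha3.trans hτ1).trans g1) (hJa.trans hJ1)
      have h7 : C₁ / (2 * lam) * ((t₀ - a) + ∫ s in a..t₀, GD (fun x => φ x * OO (u s) x)) ≤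
          C₁ / (2 * lam) * ((1 + C₃) * M ^ (7 / 16 : ℝ)) :=
        mul_le_mul_of_nonneg_left h6 (by positivity)
      have h8 : C₁ / (2 * lam) * ((1 + C₃) * M ^ (7 / 16 : ℝ)) ≤ 1 / 2 := by
        have e1 : M ^ (7 / 16 : ℝ) * M ^ (1 / 16 : ℝ) = lam := by
          rw [← Real.rpow_add hMpos, hlam, Real.sqrt_eq_rpow]
          norm_num
        have e2 : C₁ * (1 + C₃) ≤ M ^ (1 / 16 : ℝ) := by
          have e3 : (C₁ * (1 + C₃) + 1) ^ 16 ≤ M := by linarith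
          have e4 : 0 ≤ C₁ * (1 + C₃) + 1 := by positivity
          have e5 := Real.rpow_le_rpow (by positivity) e3 (by norm_num : (0:ℝ) ≤ 1 / 16)
          rw [← Real.rpow_natCast, ← Real.rpow_mul e4] at e5
          norm_num at e5
          linarith
        have e6 : 0 < M ^ (7 / 16 : ℝ) := Real.rpow_pos_of_pos hMpos _
        rw [div_mul_eq_mul_div, div_le_iff₀ (by positivity)]
        have e7 := mul_le_mul_of_nonneg_left e2 e6.le
        rw [e1] at e7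
        have e8 : C₁ * ((1 + C₃) * M ^ (7 / 16 : ℝ)) = M ^ (7 / 16 : ℝ) * (C₁ * (1 + C₃)) := by ring
        rw [e8]
        have e9 : 1 / 2 * (2 * lam) = lam := by ring
        rw [e9]
        exact e7
      calc _ ≤ (1 / 2 : ℝ) + 1 / 2 := add_le_add (h4.trans h5) (h7.trans h8)
        _ = 1 := by norm_num
    have hfin := hSm' τ ⟨hτ0, hτ1⟩ t₀ ht₀ B hBc hUB (by rw [← ha]; exact hint) x₀ hz₀.2
    rw [← hM, hτ] at hfin
    have h9 : C₂ / (1 / (2 * lam)) = 2 * C₂ * lam := by field_simp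
    rw [h9] at hfin
    have h10 : 4 * C₂ + 2 ≤ lam := by
      rw [hlam]
      exact Real.le_sqrt_of_sq_le (by linarith)
    rw [← hlam2, pow_two] at hfin
    have h11 := le_of_mul_le_mul_right hfin hlam0
    linarith
  exact ⟨M₁, by rw [hM₁]; linarith, fun t ht x hx => key t ht x ⟨hx.1.le, hx.2.le⟩⟩

end Pool.Agent.J4H1.AX
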