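import Mathlib

/-!
A Gronwall lemma on one interval, with the dissipation and a weak singularity at the end.
-/

set_option autoImplicit false

open MeasureTheory Set Filter Topology

namespace Pool.Agent.J4H1.AX

theorem seg {T a b θ κ l A D : ℝ} {Y D' G g : ℝ → ℝ} (hab : a ≤ b) (hbT : b < T) (hθ : θ < 1)
    (hκ : 0 ≤ κ) (hl : 0 < l) (hA : 0 ≤ A) (hY : ∀ t, 0 ≤ Y t)
    (hD1 : ∀ t ∈ Icc a b, HasDerivAt Y (D' t) t)
    (hD2 : ∀ t ∈ Ioo a b,
      D' t ≤ -g t + A * (1 + G t) + κ * (T - t) ^ (-θ) * (1 + Y t / l))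
    (hg0 : ∀ t, 0 ≤ g t) (hgi : IntegrableOn g (Icc a b))
    (hG0 : ∀ t, 0 ≤ G t) (hGi : IntegrableOn G (Icc a b))
    (hGD : ∫ s in a..b, (1 + G s) ≤ D) :
    Y b + ∫ s in a..b, g s ≤ Real.exp (κ / (l * (1 - θ)) * (T - a) ^ (1 - θ)) *
      (Y a + κ / (1 - θ) * (T - a) ^ (1 - θ) + A * D) := by
  have h1θ : 0 < 1 - θ := by linarith
  obtain ⟨α, hα⟩ : ∃ α : ℝ, α = κ / (l * (1 - θ)) := ⟨_, rfl⟩
  have hα0 : 0 ≤ α := by rw [hα]; positivity
  obtain ⟨F, hF⟩ : ∃ F : ℝ → ℝ, F = fun t => (T - t) ^ (1 - θ) := ⟨_, rfl⟩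
  have hFa : F a = (T - a) ^ (1 - θ) := by rw [hF]
  rw [← hα, ← hFa]
  have hF0 : ∀ t, t < T → 0 ≤ F t := by
    intro t ht
    rw [hF]
    exact Real.rpow_nonneg (by linarith) _
  have hFm : ∀ t ∈ Icc a b, F t ≤ F a := by
    intro t ht
    rw [hF]
    exact Real.rpow_le_rpow (by linarith [ht.2]) (by linarith [ht.1]) h1θ.le
  obtain ⟨E, hE⟩ : ∃ E : ℝ, E = Real.exp (α * F a) := ⟨_, rfl⟩
  have hE0 : 0 < E := by rw [hE]; exact Real.exp_pos _
  rw [← hE]
  have hFd : ∀ t, t < T → HasDerivAt F (-((1 - θ) * (T - t) ^ (-θ))) t := by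
    intro t ht
    have h1 : HasDerivAt (fun s : ℝ => T - s) (-1) t := by
      simpa using (hasDerivAt_id t).const_sub T
    have h2 := h1.rpow_const (p := 1 - θ) (Or.inl (by linarith : T - t ≠ 0))
    rw [hF]
    have h3 : (1 - θ) - 1 = -θ := by ring
    rw [h3] at h2
    have h4 : -((1 - θ) * (T - t) ^ (-θ)) = -1 * (1 - θ) * (T - t) ^ (-θ) := by ring
    rw [h4]
    exact h2
  obtain ⟨W, hW⟩ : ∃ W : ℝ → ℝ, W = fun t => Y t * Real.exp (α * F t) + E * κ / (1 - θ) * F t :=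
    ⟨_, rfl⟩
  have hWd : ∀ t ∈ Icc a b, HasDerivAt W (D' t * Real.exp (α * F t) +
      Y t * (Real.exp (α * F t) * (α * (-((1 - θ) * (T - t) ^ (-θ))))) +
      E * κ / (1 - θ) * (-((1 - θ) * (T - t) ^ (-θ)))) t := by
    intro t ht
    rw [hW]
    exact ((hD1 t ht).mul ((hFd t (ht.2.trans_lt hbT)).const_mul α).exp).add
      ((hFd t (ht.2.trans_lt hbT)).const_mul _)
  have hWb : ∀ t ∈ Ioo a b, D' t * Real.exp (α * F t) +
      Y t * (Real.exp (α * F t) * (α * (-((1 - θ) * (T - t) ^ (-θ))))) +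
      E * κ / (1 - θ) * (-((1 - θ) * (T - t) ^ (-θ))) ≤ -g t + E * A * (1 + G t) := by
    intro t ht
    obtain ⟨x, hx⟩ : ∃ x : ℝ, x = Real.exp (α * F t) := ⟨_, rfl⟩
    obtain ⟨P, hP⟩ : ∃ P : ℝ, P = (T - t) ^ (-θ) := ⟨_, rfl⟩
    have hx1 : 1 ≤ x := by
      rw [hx]
      exact Real.one_le_exp (mul_nonneg hα0 (hF0 t (ht.2.trans hbT)))
    have hx0 : 0 < x := by linarith
    have hxE : x ≤ E := by
      rw [hx, hE, Real.exp_le_exp]
      exact mul_le_mul_of_nonneg_left (hFm t ⟨ht.1.le, ht.2.le⟩) hα0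
    have hP0 : 0 ≤ P := by rw [hP]; exact Real.rpow_nonneg (by linarith [ht.2]) _
    have h1 := hD2 t ht
    rw [← hP] at h1
    rw [← hx, ← hP]
    have h2 : α * (-((1 - θ) * P)) = -(κ * P / l) := by
      rw [hα]
      field_simp
    have h3 : E * κ / (1 - θ) * (-((1 - θ) * P)) = -(E * (κ * P)) := by
      field_simp
    rw [h2, h3]
    have h4 := mul_le_mul_of_nonneg_right h1 hx0.le
    have h5 : x * (A * (1 + G t)) ≤ E * (A * (1 + G t)) :=
      mul_le_mul_of_nonneg_right hxE (mul_nonneg hA (by linarith [hG0 t]))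
    have h6 : x * (κ * P) ≤ E * (κ * P) :=
      mul_le_mul_of_nonneg_right hxE (mul_nonneg hκ hP0)
    have h7 : (-g t + A * (1 + G t) + κ * P * (1 + Y t / l)) * x =
        -(g t * x) + x * (A * (1 + G t)) + x * (κ * P) + Y t * (x * (κ * P / l)) := by
      field_simp
      ring
    rw [h7] at h4
    have h8 : Y t * (x * -(κ * P / l)) = -(Y t * (x * (κ * P / l))) := by ring
    rw [h8]
    have h9 : g t ≤ g t * x := by
      have := hg0 t
      nlinarith
    linarith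
  have hi1 : IntegrableOn (fun _ : ℝ => (1 : ℝ)) (Icc a b) :=
    integrableOn_const (by rw [Real.volume_Icc]; exact ENNReal.ofReal_ne_top)
  have h4 := intervalIntegral.sub_le_integral_of_hasDeriv_right_of_le (g := W)
    (φ := fun s => -g s + E * A * (1 + G s)) hab
    (fun s hs => (hWd s hs).continuousAt.continuousWithinAt)
    (fun s hs => (hWd s ⟨hs.1.le, hs.2.le⟩).hasDerivWithinAt)
    (hgi.neg.add ((hi1.add hGi).const_mul _))
    (fun s hs => hWb s hs)
  have hgI : IntervalIntegrable g volume a b :=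
    (intervalIntegrable_iff_integrableOn_Icc_of_le hab).2 hgi
  have hGI : IntervalIntegrable (fun s => 1 + G s) volume a b :=
    (intervalIntegrable_iff_integrableOn_Icc_of_le hab).2 (hi1.add hGi)
  have hsplit : ∫ s in a..b, (-g s + E * A * (1 + G s)) =
      -(∫ s in a..b, g s) + E * A * ∫ s in a..b, (1 + G s) := by
    have e1 := intervalIntegral.integral_add (μ := volume) (a := a) (b := b)
      (f := fun s => -g s) (g := fun s => E * A * (1 + G s)) hgI.neg (hGI.const_mul _)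
    rw [e1, intervalIntegral.integral_neg, intervalIntegral.integral_const_mul]
  rw [hsplit] at h4
  have h5 : E * A * ∫ s in a..b, (1 + G s) ≤ E * A * D :=
    mul_le_mul_of_nonneg_left hGD (mul_nonneg hE0.le hA)
  have h6 : Y b ≤ W b := by
    rw [hW]
    have h7 : 1 ≤ Real.exp (α * F b) := Real.one_le_exp (mul_nonneg hα0 (hF0 b hbT))
    have h8 : 0 ≤ E * κ / (1 - θ) * F b := by
      have := hF0 b hbT
      positivity
    have h9 := hY b
    simp only
    nlinarith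
  have h10 : W a = E * (Y a + κ / (1 - θ) * F a) := by
    rw [hW]
    simp only
    rw [← hE]
    ring
  rw [h10] at h4
  nlinarith [h4, h5, h6]

end Pool.Agent.J4H1.AX
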